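import Mathlib

set_option autoImplicit false

namespace Pool.Agent.Results.MP_830bfa_an.DimensionThreeUp

/-- The Jacobian matrix of `f` at `x`: the entry in row `i` and column `j` is the partial
derivative of the `i`-th coordinate of `f` in the `j`-th variable. -/
noncomputable def Jac {n : ℕ} (f : (Fin n → ℝ) → (Fin n → ℝ)) (x : Fin n → ℝ) :
    Matrix (Fin n) (Fin n) ℝ :=
  Matrix.of fun i j => fderiv ℝ f x (Pi.single j 1) i

/-- The complex number `z` is an eigenvalue of the real matrix `M`. -/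
def CEigen {n : ℕ} (M : Matrix (Fin n) (Fin n) ℝ) (z : ℂ) : Prop :=
  ∃ v : Fin n → ℂ, v ≠ 0 ∧ (M.map (fun r : ℝ => (r : ℂ))).mulVec v = z • v

section Core

variable {m : ℕ}

/-- The auxiliary function `sqrt (s ^ 2 + exp (2 t))`, `s = x 1`, `t = x 2`. -/
noncomputable def psi (x : Fin (m + 3) → ℝ) : ℝ :=
  Real.sqrt ((x 1) ^ 2 + Real.exp (2 * x 2))

/-- The map before scaling. -/
noncomputable def gmap (x : Fin (m + 3) → ℝ) : Fin (m + 3) → ℝ := fun i =>
  if i = 0 then (1 + psi x) * Real.cos (x 0)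
  else if i = 1 then (1 + psi x) * Real.sin (x 0)
  else if i = 2 then x 1 * Real.exp (-(x 2))
  else x i

lemma psi_arg_pos (x : Fin (m + 3) → ℝ) : 0 < (x 1) ^ 2 + Real.exp (2 * x 2) := by
  have := Real.exp_pos (2 * x 2)
  positivity

lemma psi_pos (x : Fin (m + 3) → ℝ) : 0 < psi x := Real.sqrt_pos.mpr (psi_arg_pos x)

lemma psi_sq (x : Fin (m + 3) → ℝ) : psi x ^ 2 = (x 1) ^ 2 + Real.exp (2 * x 2) :=
  Real.sq_sqrt (psi_arg_pos x).le

lemma one_ne_zero' : (1 : Fin (m + 3)) ≠ 0 := by simp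

lemma two_ne_zero' : (2 : Fin (m + 3)) ≠ 0 := by
  intro h
  have h1 := congrArg Fin.val h
  simp at h1
  rw [Nat.mod_eq_of_lt (by omega)] at h1
  omega

lemma two_ne_one' : (2 : Fin (m + 3)) ≠ 1 := by
  intro h
  have h1 := congrArg Fin.val h
  simp at h1
  rw [Nat.mod_eq_of_lt (by omega)] at h1
  omega

lemma contDiff_psi : ContDiff ℝ ⊤ (psi : (Fin (m + 3) → ℝ) → ℝ) := by
  rw [contDiff_iff_contDiffAt]
  intro x
  unfold psi
  refine ContDiffAt.sqrt ?_ (psi_arg_pos x).ne'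
  fun_prop

lemma contDiff_gmap (C : ℝ) :
    ContDiff ℝ ⊤ (fun x : Fin (m + 3) → ℝ => C • gmap x) := by
  have hp : ContDiff ℝ ⊤ (psi : (Fin (m + 3) → ℝ) → ℝ) := contDiff_psi
  refine ContDiff.const_smul C ?_
  rw [contDiff_pi]
  intro i
  unfold gmap
  by_cases h0 : i = 0
  · simp only [h0, if_true]
    fun_prop
  · by_cases h1 : i = 1
    · simp only [h1, if_true, one_ne_zero', if_false]
      fun_prop
    · by_cases h2 : i = 2
      · simp only [h2, if_true, two_ne_zero', two_ne_one', if_false]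
        fun_prop
      · simp only [h0, h1, h2, if_false]
        fun_prop

/-- Coordinate functionals. -/
noncomputable def pr (i : Fin (m + 3)) : (Fin (m + 3) → ℝ) →L[ℝ] ℝ :=
  ContinuousLinearMap.proj (R := ℝ) (φ := fun _ : Fin (m + 3) => ℝ) i

lemma pr_apply (i : Fin (m + 3)) (v : Fin (m + 3) → ℝ) : pr i v = v i := rfl

lemma hasFDerivAt_pr (x : Fin (m + 3) → ℝ) (i : Fin (m + 3)) :
    HasFDerivAt (fun u : Fin (m + 3) → ℝ => u i) (pr i) x :=
  (pr i).hasFDerivAt

lemma hasFDerivAt_psi (x : Fin (m + 3) → ℝ) :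
    HasFDerivAt (psi : (Fin (m + 3) → ℝ) → ℝ)
      ((x 1 / psi x) • pr 1 + (Real.exp (2 * x 2) / psi x) • pr 2) x := by
  have h1 := hasFDerivAt_pr x 1
  have h2 := hasFDerivAt_pr x 2
  have h3 : HasFDerivAt (fun u : Fin (m + 3) → ℝ => (u 1) ^ 2 + Real.exp (2 * u 2)) _ x :=
    (h1.pow 2).add ((h2.const_mul 2).exp)
  have h4 := h3.sqrt (psi_arg_pos x).ne'
  have hp := psi_pos x
  refine HasFDerivAt.congr_fderiv (f := psi) h4 ?_
  ext v
  have hpe : Real.sqrt ((x 1) ^ 2 + Real.exp (2 * x 2)) = psi x := rfl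
  simp only [smul_apply, add_apply, pr_apply,
    smul_eq_mul, hpe]
  field_simp
  simp
  ring

/-- The row of partial derivatives of the coordinate `i` of `gmap` as a linear map. -/
noncomputable def row (x : Fin (m + 3) → ℝ) (i : Fin (m + 3)) : (Fin (m + 3) → ℝ) →L[ℝ] ℝ :=
  if i = 0 then (-((1 + psi x) * Real.sin (x 0))) • pr 0
      + (x 1 / psi x * Real.cos (x 0)) • pr 1
      + (Real.exp (2 * x 2) / psi x * Real.cos (x 0)) • pr 2
  else if i = 1 then ((1 + psi x) * Real.cos (x 0)) • pr 0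
      + (x 1 / psi x * Real.sin (x 0)) • pr 1
      + (Real.exp (2 * x 2) / psi x * Real.sin (x 0)) • pr 2
  else if i = 2 then (Real.exp (-(x 2))) • pr 1 + (-(x 1 * Real.exp (-(x 2)))) • pr 2
  else pr i

lemma hasFDerivAt_gmap (x : Fin (m + 3) → ℝ) :
    HasFDerivAt (gmap : (Fin (m + 3) → ℝ) → (Fin (m + 3) → ℝ))
      (ContinuousLinearMap.pi (row x)) x := by
  rw [hasFDerivAt_pi']
  intro i
  have h0 := hasFDerivAt_pr x 0
  have h1 := hasFDerivAt_pr x 1
  have h2 := hasFDerivAt_pr x 2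
  have hp := hasFDerivAt_psi x
  have hrow : (ContinuousLinearMap.proj (R := ℝ) (φ := fun _ : Fin (m + 3) => ℝ) i).comp
      (ContinuousLinearMap.pi (row x)) = row x i := by
    ext v
    simp
  rw [hrow]
  unfold gmap row
  by_cases e0 : i = 0
  · simp only [e0, if_true]
    have h := (hp.const_add 1).mul h0.cos
    refine h.congr_fderiv ?_
    ext v
    simp [pr_apply]
    ring
  · by_cases e1 : i = 1
    · simp only [e1, if_true, one_ne_zero', if_false]
      have h := (hp.const_add 1).mul h0.sin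
      refine h.congr_fderiv ?_
      ext v
      simp [pr_apply]
      ring
    · by_cases e2 : i = 2
      · simp only [e2, if_true, two_ne_zero', two_ne_one', if_false]
        have h := h1.mul h2.neg.exp
        refine h.congr_fderiv ?_
        ext v
        simp [pr_apply]
        ring
      · simp only [e0, e1, e2, if_false]
        exact hasFDerivAt_pr x i

lemma jac_eq (C : ℝ) (x : Fin (m + 3) → ℝ) (i j : Fin (m + 3)) :
    Jac (fun x : Fin (m + 3) → ℝ => C • gmap x) x i j = C * row x i (Pi.single j 1) := by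
  have h := (hasFDerivAt_gmap x).const_smul C
  unfold Jac
  have h' : fderiv ℝ (fun x : Fin (m + 3) → ℝ => C • gmap x) x
      = C • ContinuousLinearMap.pi (row x) := h.fderiv
  simp [h']

/-- Complex extension of a real functional. -/
noncomputable def cx (L : (Fin (m + 3) → ℝ) →L[ℝ] ℝ) (v : Fin (m + 3) → ℂ) : ℂ :=
  ∑ j, ((L (Pi.single j 1) : ℝ) : ℂ) * v j

lemma cx_pr (k : Fin (m + 3)) (v : Fin (m + 3) → ℂ) : cx (pr k) v = v k := by
  unfold cx
  simp only [pr_apply, Pi.single_apply]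
  rw [Finset.sum_eq_single k]
  · simp
  · intro j _ hj
    simp [Ne.symm hj]
  · simp

lemma cx_add (L M : (Fin (m + 3) → ℝ) →L[ℝ] ℝ) (v : Fin (m + 3) → ℂ) :
    cx (L + M) v = cx L v + cx M v := by
  unfold cx
  rw [← Finset.sum_add_distrib]
  refine Finset.sum_congr rfl fun j _ => ?_
  simp [add_mul]

lemma cx_smul (a : ℝ) (L : (Fin (m + 3) → ℝ) →L[ℝ] ℝ) (v : Fin (m + 3) → ℂ) :
    cx (a • L) v = (a : ℂ) * cx L v := by
  unfold cx
  rw [Finset.mul_sum]
  refine Finset.sum_congr rfl fun j _ => ?_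
  simp [mul_assoc]

lemma mulVec_jac (C : ℝ) (x : Fin (m + 3) → ℝ) (v : Fin (m + 3) → ℂ) (i : Fin (m + 3)) :
    ((Jac (fun x : Fin (m + 3) → ℝ => C • gmap x) x).map (fun r : ℝ => (r : ℂ))).mulVec v i
      = (C : ℂ) * cx (row x i) v := by
  unfold cx
  rw [Matrix.mulVec, dotProduct, Finset.mul_sum]
  refine Finset.sum_congr rfl fun j _ => ?_
  rw [Matrix.map_apply, jac_eq]
  push_cast
  ring

/-- The key estimate: a cubic `w ^ 3 - T w ^ 2 + S w - D` whose constant term dominates. -/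
lemma cubic_lower (w : ℂ) (T S D : ℝ) (hD : 1 ≤ D) (hT : |T| ≤ 3 * D) (hS : |S| ≤ 3 * D)
    (h : w ^ 3 - (T : ℂ) * w ^ 2 + (S : ℂ) * w - (D : ℂ) = 0) : 1 / 4 ≤ ‖w‖ := by
  by_contra hlt
  push Not at hlt
  have hn := norm_nonneg w
  have h1 : (D : ℂ) = w ^ 3 - (T : ℂ) * w ^ 2 + (S : ℂ) * w := by linear_combination -h
  have h2 : D ≤ ‖w‖ ^ 3 + |T| * ‖w‖ ^ 2 + |S| * ‖w‖ := by
    have h3 : ‖(D : ℂ)‖ = D := by
      rw [Complex.norm_real, Real.norm_of_nonneg (by linarith)]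
    rw [← h3, h1]
    calc ‖w ^ 3 - (T : ℂ) * w ^ 2 + (S : ℂ) * w‖
        ≤ ‖w ^ 3 - (T : ℂ) * w ^ 2‖ + ‖(S : ℂ) * w‖ := norm_add_le _ _
      _ ≤ ‖w ^ 3‖ + ‖(T : ℂ) * w ^ 2‖ + ‖(S : ℂ) * w‖ := by
          gcongr
          exact norm_sub_le _ _
      _ = ‖w‖ ^ 3 + |T| * ‖w‖ ^ 2 + |S| * ‖w‖ := by
          simp [norm_pow, Complex.norm_real]
  have h4 : ‖w‖ ^ 2 ≤ 1 / 16 := by nlinarith
  have h5 : ‖w‖ ^ 3 ≤ 1 / 64 := by
    calc ‖w‖ ^ 3 = ‖w‖ ^ 2 * ‖w‖ := by ring
      _ ≤ (1 / 16) * (1 / 4) := mul_le_mul h4 hlt.le hn (by norm_num)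
      _ = 1 / 64 := by norm_num
  have h6 : |T| * ‖w‖ ^ 2 ≤ 3 * D * (1 / 16) :=
    mul_le_mul hT h4 (by positivity) (by linarith)
  have h7 : |S| * ‖w‖ ≤ 3 * D * (1 / 4) :=
    mul_le_mul hS hlt.le hn (by linarith)
  nlinarith

/-- Real estimates for the three coefficients. -/
lemma coeff_bounds (x : Fin (m + 3) → ℝ) :
    1 ≤ (1 + psi x) * psi x * Real.exp (-(x 2)) ∧
    |-((1 + psi x) * Real.sin (x 0)) + x 1 / psi x * Real.sin (x 0)
        - x 1 * Real.exp (-(x 2))| ≤ 3 * ((1 + psi x) * psi x * Real.exp (-(x 2))) ∧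
    |-((1 + psi x) * (x 1 / psi x)) + (1 + psi x) * x 1 * Real.exp (-(x 2)) * Real.sin (x 0)
        - Real.sin (x 0) * Real.exp (-(x 2)) * psi x|
      ≤ 3 * ((1 + psi x) * psi x * Real.exp (-(x 2))) := by
  have hp := psi_pos x
  have hsq := psi_sq x
  set p := psi x with hpdef
  set s := x 1
  set t := x 2
  set σ := Real.sin (x 0)
  have hσ : |σ| ≤ 1 := Real.abs_sin_le_one _
  have hE : 0 < Real.exp (-t) := Real.exp_pos _
  set E := Real.exp (-t) with hEdef
  have hEE : Real.exp (2 * t) * E ^ 2 = 1 := by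
    rw [hEdef, ← Real.exp_nat_mul, ← Real.exp_add]
    norm_num
  have hs : |s| ≤ p := by
    rw [← abs_of_pos hp]
    apply sq_le_sq.mp
    have := Real.exp_pos (2 * t)
    nlinarith
  have hpE : 1 ≤ p * E := by
    have h1 : (p * E) ^ 2 = s ^ 2 * E ^ 2 + 1 := by
      rw [mul_pow, hsq, add_mul, hEE]
    have h2 : 1 ≤ (p * E) ^ 2 := by
      rw [h1]
      nlinarith [mul_nonneg (sq_nonneg s) (sq_nonneg E)]
    have h3 : 0 < p * E := mul_pos hp hE
    nlinarith
  have hsp : |s / p| ≤ 1 := by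
    rw [abs_div, abs_of_pos hp, div_le_one hp]
    exact hs
  set R := 1 + p with hR
  have hR1 : 1 ≤ R := by linarith
  have hD : R ≤ R * p * E := by nlinarith
  have hD2 : p * E ≤ R * p * E := by nlinarith
  refine ⟨by linarith, ?_, ?_⟩
  · have a1 : |R * σ| ≤ R := by
      rw [abs_mul, abs_of_nonneg (by linarith : (0 : ℝ) ≤ R)]
      nlinarith [abs_nonneg σ]
    have a2 : |s / p * σ| ≤ 1 := by
      rw [abs_mul]
      nlinarith [abs_nonneg σ, abs_nonneg (s / p)]
    have a3 : |s * E| ≤ p * E := by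
      rw [abs_mul, abs_of_pos hE]
      nlinarith
    have b1 := abs_le.mp a1
    have b2 := abs_le.mp a2
    have b3 := abs_le.mp a3
    rw [abs_le]
    constructor <;> linarith [b1.1, b1.2, b2.1, b2.2, b3.1, b3.2]
  · have a1 : |R * (s / p)| ≤ R := by
      rw [abs_mul, abs_of_nonneg (by linarith : (0 : ℝ) ≤ R)]
      nlinarith [abs_nonneg (s / p)]
    have a2 : |R * s * E * σ| ≤ R * p * E := by
      have : |R * s * E * σ| = R * |s| * E * |σ| := by
        rw [abs_mul, abs_mul, abs_mul, abs_of_pos hE, abs_of_nonneg (by linarith : (0 : ℝ) ≤ R)]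
      rw [this]
      have h1 : R * |s| * E ≤ R * p * E := by gcongr
      have h2 : 0 ≤ R * |s| * E := by positivity
      nlinarith [abs_nonneg σ]
    have a3 : |σ * E * p| ≤ p * E := by
      have : |σ * E * p| = |σ| * (p * E) := by
        rw [abs_mul, abs_mul, abs_of_pos hE, abs_of_pos hp]
        ring
      rw [this]
      nlinarith [abs_nonneg σ]
    have b1 := abs_le.mp a1
    have b2 := abs_le.mp a2
    have b3 := abs_le.mp a3
    rw [abs_le]
    constructor <;> linarith [b1.1, b1.2, b2.1, b2.2, b3.1, b3.2]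

/-- The characteristic equation of the three-dimensional block. -/
lemma det_alg (w : ℂ) (R p s E σ κ r1 r2 : ℝ) (h1 : s * r1 + r2 = p) (h2 : σ ^ 2 + κ ^ 2 = 1)
    (v0 v1 v2 : ℂ) (hv : ¬ (v0 = 0 ∧ v1 = 0 ∧ v2 = 0))
    (e0 : ((-(R * σ) : ℝ) : ℂ) * v0 + ((r1 * κ : ℝ) : ℂ) * v1 + ((r2 * κ : ℝ) : ℂ) * v2 = w * v0)
    (e1 : ((R * κ : ℝ) : ℂ) * v0 + ((r1 * σ : ℝ) : ℂ) * v1 + ((r2 * σ : ℝ) : ℂ) * v2 = w * v1)
    (e2 : (E : ℂ) * v1 + ((-(s * E) : ℝ) : ℂ) * v2 = w * v2) :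
    w ^ 3 - ((-(R * σ) + r1 * σ - s * E : ℝ) : ℂ) * w ^ 2
      + ((-(R * r1) + R * s * E * σ - σ * E * p : ℝ) : ℂ) * w - ((R * p * E : ℝ) : ℂ) = 0 := by
  have hd : (!![((-(R * σ) : ℝ) : ℂ) - w, ((r1 * κ : ℝ) : ℂ), ((r2 * κ : ℝ) : ℂ);
      ((R * κ : ℝ) : ℂ), ((r1 * σ : ℝ) : ℂ) - w, ((r2 * σ : ℝ) : ℂ);
      0, (E : ℂ), ((-(s * E) : ℝ) : ℂ) - w] : Matrix (Fin 3) (Fin 3) ℂ).det = 0 := by
    rw [← Matrix.exists_mulVec_eq_zero_iff]
    refine ⟨![v0, v1, v2], ?_, ?_⟩
    · intro h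
      apply hv
      refine ⟨?_, ?_, ?_⟩
      · simpa using congrFun h 0
      · simpa using congrFun h 1
      · simpa using congrFun h 2
    · ext i
      fin_cases i
      · simp [Matrix.mulVec, dotProduct, Fin.sum_univ_three]
        push_cast at e0
        linear_combination e0
      · simp [Matrix.mulVec, dotProduct, Fin.sum_univ_three]
        push_cast at e1
        linear_combination e1
      · simp [Matrix.mulVec, dotProduct, Fin.sum_univ_three]
        push_cast at e2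
        linear_combination e2
  rw [Matrix.det_fin_three] at hd
  simp at hd
  have g1 : (s : ℂ) * r1 + r2 = p := by exact_mod_cast h1
  have g2 : (σ : ℂ) ^ 2 + (κ : ℂ) ^ 2 = 1 := by exact_mod_cast h2
  push_cast
  linear_combination (-1 : ℂ) * hd + ((R : ℂ) * r1 * w + R * E * (s * r1 + r2)) * g2
    + ((σ : ℂ) * E * w + R * E) * g1

lemma eig_core (C : ℝ) (hC : 0 < C) (x : Fin (m + 3) → ℝ) (z : ℂ)
    (h : CEigen (Jac (fun x : Fin (m + 3) → ℝ => C • gmap x) x) z) : C / 4 ≤ ‖z‖ := by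
  obtain ⟨v, hv, hvz⟩ := h
  have hi : ∀ i, (C : ℂ) * cx (row x i) v = z * v i := by
    intro i
    have h1 := congrFun hvz i
    rw [mulVec_jac] at h1
    simpa using h1
  have hC' : (C : ℂ) ≠ 0 := by exact_mod_cast hC.ne'
  have hw : ∀ i, cx (row x i) v = (z / C) * v i := by
    intro i
    have := hi i
    field_simp
    linear_combination this
  by_cases hz : v 0 = 0 ∧ v 1 = 0 ∧ v 2 = 0
  · obtain ⟨z0, z1, z2⟩ := hz
    obtain ⟨i, hiv⟩ := Function.ne_iff.mp hv
    have i0 : i ≠ 0 := by rintro rfl; exact hiv z0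
    have i1 : i ≠ 1 := by rintro rfl; exact hiv z1
    have i2 : i ≠ 2 := by rintro rfl; exact hiv z2
    have h1 := hi i
    have hr : row x i = pr i := by simp [row, i0, i1, i2]
    rw [hr, cx_pr] at h1
    have h2 : (C : ℂ) = z := mul_right_cancel₀ hiv h1
    rw [← h2, Complex.norm_real, Real.norm_of_nonneg hC.le]
    linarith
  · have hp := psi_pos x
    have hsq := psi_sq x
    have h0 := hw 0
    have h1 := hw 1
    have h2 := hw 2
    have r0 : row x 0 = (-((1 + psi x) * Real.sin (x 0))) • pr 0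
      + (x 1 / psi x * Real.cos (x 0)) • pr 1
      + (Real.exp (2 * x 2) / psi x * Real.cos (x 0)) • pr 2 := by simp [row]
    have r1 : row x 1 = ((1 + psi x) * Real.cos (x 0)) • pr 0
      + (x 1 / psi x * Real.sin (x 0)) • pr 1
      + (Real.exp (2 * x 2) / psi x * Real.sin (x 0)) • pr 2 := by simp [row]
    have r2 : row x 2 = (Real.exp (-(x 2))) • pr 1 + (-(x 1 * Real.exp (-(x 2)))) • pr 2 := by
      simp [row, two_ne_zero', two_ne_one']
    rw [r0, cx_add, cx_add, cx_smul, cx_smul, cx_smul, cx_pr, cx_pr, cx_pr] at h0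
    rw [r1, cx_add, cx_add, cx_smul, cx_smul, cx_smul, cx_pr, cx_pr, cx_pr] at h1
    rw [r2, cx_add, cx_smul, cx_smul, cx_pr, cx_pr] at h2
    obtain ⟨b1, b2, b3⟩ := coeff_bounds x
    have key := det_alg (z / C) (1 + psi x) (psi x) (x 1) (Real.exp (-(x 2))) (Real.sin (x 0))
      (Real.cos (x 0)) (x 1 / psi x) (Real.exp (2 * x 2) / psi x)
      (by field_simp; linarith) (Real.sin_sq_add_cos_sq (x 0)) (v 0) (v 1) (v 2) hz h0 h1 h2
    have h4 := cubic_lower (z / C) _ _ _ b1 b2 b3 key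
    rw [norm_div, Complex.norm_real, Real.norm_of_nonneg hC.le, le_div_iff₀ hC] at h4
    linarith

lemma fiber (C : ℝ) (x : Fin (m + 3) → ℝ) (k : ℕ) :
    C • gmap (Function.update x 0 (x 0 + k * (2 * Real.pi))) = C • gmap x := by
  have h1 : (Function.update x 0 (x 0 + k * (2 * Real.pi))) 1 = x 1 :=
    Function.update_of_ne one_ne_zero' _ _
  have h2 : (Function.update x 0 (x 0 + k * (2 * Real.pi))) 2 = x 2 :=
    Function.update_of_ne two_ne_zero' _ _
  have h0 : (Function.update x 0 (x 0 + k * (2 * Real.pi))) 0 = x 0 + k * (2 * Real.pi) :=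
    Function.update_self _ _ _
  congr 1
  ext i
  unfold gmap psi
  rw [h0, h1, h2, Real.cos_add_nat_mul_two_pi, Real.sin_add_nat_mul_two_pi]
  by_cases e0 : i = 0
  · simp [e0]
  · rw [Function.update_of_ne e0]

end Core

lemma det_ne_zero_of {n : ℕ} (M : Matrix (Fin n) (Fin n) ℝ) (K : ℝ) (hK : 0 < K)
    (h : ∀ z, CEigen M z → K ≤ ‖z‖) : M.det ≠ 0 := by
  intro hd
  obtain ⟨v, hv, hMv⟩ := Matrix.exists_mulVec_eq_zero_iff.mpr hd
  have h1 : CEigen M 0 := by
    refine ⟨fun i => (v i : ℂ), ?_, ?_⟩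
    · intro h0
      apply hv
      ext i
      have := congrFun h0 i
      simpa using this
    · ext i
      have h2 := congrFun hMv i
      simp only [Matrix.mulVec, dotProduct, Matrix.map_apply, Pi.zero_apply] at h2 ⊢
      have h3 : ((∑ j, M i j * v j : ℝ) : ℂ) = 0 := by rw [h2]; simp
      push_cast at h3
      simpa using h3
  have := h 0 h1
  simp at this
  linarith

lemma inv_bound {n : ℕ} (M : Matrix (Fin n) (Fin n) ℝ) (K : ℝ) (hK : 0 < K)
    (h : ∀ z, CEigen M z → K ≤ ‖z‖) (z : ℂ) (hz : CEigen M⁻¹ z) : ‖z‖ ≤ 1 / K := by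
  have hd := det_ne_zero_of M K hK h
  obtain ⟨v, hv, hvz⟩ := hz
  have hmul : (M.map (fun r : ℝ => (r : ℂ))) * (M⁻¹.map (fun r : ℝ => (r : ℂ))) = 1 := by
    have h1 : M * M⁻¹ = 1 := Matrix.mul_nonsing_inv M (isUnit_iff_ne_zero.mpr hd)
    have h2 := congrArg (fun A : Matrix (Fin n) (Fin n) ℝ => A.map (Complex.ofRealHom)) h1
    simp only [Matrix.map_mul] at h2
    rw [Matrix.map_one _ (map_zero _) (map_one _)] at h2
    exact h2
  have h1 : v = z • (M.map (fun r : ℝ => (r : ℂ))).mulVec v := by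
    calc v = (1 : Matrix (Fin n) (Fin n) ℂ).mulVec v := (Matrix.one_mulVec v).symm
      _ = (M.map (fun r : ℝ => (r : ℂ))).mulVec ((M⁻¹.map (fun r : ℝ => (r : ℂ))).mulVec v) := by
          rw [Matrix.mulVec_mulVec, hmul]
      _ = z • (M.map (fun r : ℝ => (r : ℂ))).mulVec v := by
          rw [hvz, Matrix.mulVec_smul]
  have hz0 : z ≠ 0 := by
    rintro rfl
    rw [zero_smul] at h1
    exact hv h1
  have h2 : CEigen M z⁻¹ := by
    refine ⟨v, hv, ?_⟩
    conv_rhs => rw [h1]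
    rw [smul_smul, inv_mul_cancel₀ hz0, one_smul]
  have h3 := h _ h2
  rw [norm_inv] at h3
  have h4 : 0 < ‖z‖ := norm_pos_iff.mpr hz0
  rw [le_div_iff₀ hK]
  have h5 : K * ‖z‖ ≤ ‖z‖⁻¹ * ‖z‖ := mul_le_mul_of_nonneg_right h3 h4.le
  rw [inv_mul_cancel₀ h4.ne'] at h5
  linarith

/-- For every `n ≥ 3` and every `K > 0` there is a real-analytic map of `ℝⁿ` to itself all of whose
Jacobian matrices are invertible with all complex eigenvalues of modulus at least `K` (so that the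
inverse has spectral radius at most `1 / K`), and which takes each of its values infinitely often. -/
theorem result (n : ℕ) (hn : 3 ≤ n) (K : ℝ) (hK : 0 < K) :
    ∃ f : (Fin n → ℝ) → (Fin n → ℝ),
      AnalyticOnNhd ℝ f Set.univ ∧
      (∀ x, (Jac f x).det ≠ 0) ∧
      (∀ x z, CEigen (Jac f x) z → K ≤ ‖z‖) ∧
      (∀ x z, CEigen (Jac f x)⁻¹ z → ‖z‖ ≤ 1 / K) ∧
      (∀ x, {x' | f x' = f x}.Infinite) := by
  obtain ⟨m, rfl⟩ : ∃ m, n = m + 3 := ⟨n - 3, by omega⟩
  have hE : ∀ (x : Fin (m + 3) → ℝ) (z : ℂ),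
      CEigen (Jac (fun x : Fin (m + 3) → ℝ => (4 * K) • gmap x) x) z → K ≤ ‖z‖ := by
    intro x z hz
    have := eig_core (4 * K) (by linarith) x z hz
    linarith
  refine ⟨fun x => (4 * K) • gmap x, ?_, ?_, hE, ?_, ?_⟩
  · exact contDiff_omega_iff_analyticOnNhd.mp (contDiff_gmap (4 * K))
  · exact fun x => det_ne_zero_of _ K hK (hE x)
  · exact fun x z hz => inv_bound _ K hK (hE x) z hz
  · intro x
    refine Set.infinite_of_injective_forall_mem
      (f := fun k : ℕ => Function.update x 0 (x 0 + k * (2 * Real.pi))) ?_ ?_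
    · intro a b hab
      have h1 := congrFun hab 0
      simp only [Function.update_self] at h1
      have h2 : (a : ℝ) * (2 * Real.pi) = b * (2 * Real.pi) := by linarith
      have h3 : (a : ℝ) = b := mul_right_cancel₀ (by positivity) h2
      exact_mod_cast h3
    · intro k
      exact fiber (4 * K) x k

end Pool.Agent.Results.MP_830bfa_an.DimensionThreeUp
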